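import Pool.Agent.Helper27.UC.Goals6

/-!
PROJECT UC (MP_d3128a_ag), packet BLK (helper26): rows of nearly equal squares.
-/

set_option autoImplicit false

namespace Pool.Agent.Helper26.UC.BLK

/-- the `t` largest elements -/
theorem split (G : Multiset ℕ) (t : ℕ) (ht : 1 ≤ t) (h : t ≤ Multiset.card G) :
    ∃ (H K : Multiset ℕ) (s : ℕ), G = H + K ∧ Multiset.card H = t ∧ (∀ x ∈ H, s ≤ x) ∧
      (∀ y ∈ K, y ≤ s) ∧ s ∈ H := by
  classical
  let L : List ℕ := G.sort (· ≥ ·)
  have hL : (L : Multiset ℕ) = G := Multiset.sort_eq G _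
  have hp : L.Pairwise (· ≥ ·) := Multiset.pairwise_sort G _
  have hlen : L.length = Multiset.card G := by
    rw [← hL]
    simp
  have hsplit : L.take t ++ L.drop t = L := List.take_append_drop t L
  have hp2 : (L.take t ++ L.drop t).Pairwise (· ≥ ·) := by
    rw [hsplit]
    exact hp
  obtain ⟨-, -, hp3⟩ := List.pairwise_append.1 hp2
  have hlt : (L.take t).length = t := by
    rw [List.length_take, hlen, min_eq_left h]
  have hne : (L.take t).toFinset.Nonempty := by
    rw [List.toFinset_nonempty_iff]
    intro h0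
    rw [h0] at hlt
    simp at hlt
    omega
  obtain ⟨s, hs, hmin⟩ := Finset.exists_min_image _ id hne
  rw [List.mem_toFinset] at hs
  refine ⟨(L.take t : Multiset ℕ), (L.drop t : Multiset ℕ), s, ?_, ?_, ?_, ?_, ?_⟩
  · rw [Multiset.coe_add, hsplit, hL]
  · simpa using hlt
  · intro x hx
    exact hmin x (List.mem_toFinset.2 (Multiset.mem_coe.1 hx))
  · intro y hy
    exact hp3 s hs y (Multiset.mem_coe.1 hy)
  · exact Multiset.mem_coe.2 hs

theorem sum_le {H : Multiset ℕ} {c : ℕ} (f : ℕ → ℕ) (h : ∀ x ∈ H, c ≤ f x) :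
    Multiset.card H * c ≤ (H.map f).sum := by
  have h1 : (H.map fun _ => c).sum ≤ (H.map f).sum := Multiset.sum_map_le_sum_map _ _ h
  rwa [Multiset.map_const', Multiset.sum_replicate, smul_eq_mul] at h1

theorem sq_aux (u e M : ℕ) (h : u + e ≤ M + 1) : (u + e) ^ 2 ≤ u ^ 2 + e * (2 * M + 2) := by
  nlinarith [Nat.zero_le e, Nat.zero_le u]

theorem main (t M : ℕ) (ht : 1 ≤ t) (n : ℕ) : ∀ (G : Multiset ℕ) (p D : ℕ),
    Multiset.card G = n → t ≤ Multiset.card G → (∀ x ∈ G, p ≤ x ∧ x ≤ p + D) → p + D ≤ M →
    ∃ (r : ℕ) (T : Multiset (ℕ × ℕ)) (a N : ℕ → ℕ), 1 ≤ r ∧ r * t ≤ Multiset.card G ∧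
      T.map Prod.snd = G ∧ (∀ p ∈ T, p.1 < r ∧ p.2 + 1 ≤ a p.1) ∧
      (∀ l < r, Multiset.card (T.filter (fun p => p.1 = l)) = N l ∧ t ≤ N l ∧ N l < 2 * t ∧
        p + 1 ≤ a l ∧ a l ≤ p + D + 1) ∧
      ∑ l ∈ Finset.range r, N l * a l ^ 2 ≤ (G.map fun x => (x + 1) ^ 2).sum +
        2 * t * D * (2 * M + 2) := by
  classical
  induction n using Nat.strong_induction_on with
  | _ n ih =>
    intro G p D hn htG hG hM
    by_cases hc : Multiset.card G < 2 * t
    · refine ⟨1, G.map fun x => (0, x), fun _ => p + D + 1, fun _ => Multiset.card G, le_rfl,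
        by omega, ?_, ?_, ?_, ?_⟩
      · rw [Multiset.map_map]
        simp
      · intro z hz
        obtain ⟨x, hx, rfl⟩ := Multiset.mem_map.1 hz
        exact ⟨Nat.one_pos, by have := (hG x hx).2; show x + 1 ≤ p + D + 1; omega⟩
      · intro l hl
        have hl0 : l = 0 := by omega
        subst hl0
        refine ⟨?_, htG, hc, by show p + 1 ≤ p + D + 1; omega, le_rfl⟩
        rw [Multiset.filter_eq_self.2, Multiset.card_map]
        intro z hz
        obtain ⟨x, -, rfl⟩ := Multiset.mem_map.1 hz
        rfl
      · rw [Finset.sum_range_one]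
        have h1 : (p + D + 1) ^ 2 ≤ (p + 1) ^ 2 + D * (2 * M + 2) := by
          have := sq_aux (p + 1) D M (by omega)
          rwa [show p + 1 + D = p + D + 1 by ring] at this
        have h2 : Multiset.card G * (p + 1) ^ 2 ≤ (G.map fun x => (x + 1) ^ 2).sum :=
          sum_le _ fun x hx => Nat.pow_le_pow_left (by have := (hG x hx).1; omega) 2
        calc Multiset.card G * (p + D + 1) ^ 2
            ≤ Multiset.card G * ((p + 1) ^ 2 + D * (2 * M + 2)) := Nat.mul_le_mul_left _ h1
          _ = Multiset.card G * (p + 1) ^ 2 + Multiset.card G * (D * (2 * M + 2)) := by ring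
          _ ≤ (G.map fun x => (x + 1) ^ 2).sum + 2 * t * (D * (2 * M + 2)) :=
              add_le_add h2 (Nat.mul_le_mul_right _ hc.le)
          _ = _ := by ring
    · push Not at hc
      obtain ⟨H, K, s, hHK, hH, hHs, hKs, hsH⟩ := split G t ht htG
      have hGH : ∀ x ∈ H, x ∈ G := fun x hx => by
        rw [hHK]
        exact Multiset.mem_add.2 (Or.inl hx)
      have hGK : ∀ x ∈ K, x ∈ G := fun x hx => by
        rw [hHK]
        exact Multiset.mem_add.2 (Or.inr hx)
      have hcard : Multiset.card G = t + Multiset.card K := by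
        rw [hHK, Multiset.card_add, hH]
      obtain ⟨hs1, hs2⟩ := hG s (hGH s hsH)
      obtain ⟨D', rfl⟩ := Nat.exists_eq_add_of_le hs1
      obtain ⟨e, he⟩ : ∃ e, D = D' + e := Nat.exists_eq_add_of_le (by omega)
      subst he
      obtain ⟨r, T, a, N, hr, hrt, hT, hT2, hl, hsum⟩ := ih (Multiset.card K) (by omega) K p D' rfl
        (by omega) (fun x hx => ⟨(hG x (hGK x hx)).1, hKs x hx⟩) (by omega)
      refine ⟨r + 1, T + H.map fun x => (r, x), Function.update a r (p + (D' + e) + 1),
        Function.update N r t, by omega, ?_, ?_, ?_, ?_, ?_⟩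
      · rw [hcard]
        nlinarith
      · rw [Multiset.map_add, hT, Multiset.map_map, hHK, add_comm K]
        simp
      · intro z hz
        rcases Multiset.mem_add.1 hz with hz | hz
        · obtain ⟨h1, h2⟩ := hT2 z hz
          refine ⟨by omega, ?_⟩
          rw [Function.update_of_ne (by omega)]
          exact h2
        · obtain ⟨x, hx, rfl⟩ := Multiset.mem_map.1 hz
          refine ⟨Nat.lt_succ_self r, ?_⟩
          rw [Function.update_self]
          have := (hG x (hGH x hx)).2
          simp
          omega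
      · intro l hlr
        rw [Multiset.filter_add, Multiset.card_add]
        by_cases hlr' : l = r
        · subst hlr'
          rw [Function.update_self, Function.update_self]
          have h1 : T.filter (fun p => p.1 = l) = 0 := by
            rw [Multiset.filter_eq_nil]
            intro z hz h
            have := (hT2 z hz).1
            omega
          have h2 : (H.map fun x => (l, x)).filter (fun p : ℕ × ℕ => p.1 = l) =
              H.map fun x => (l, x) := by
            rw [Multiset.filter_eq_self]
            intro z hz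
            obtain ⟨x, -, rfl⟩ := Multiset.mem_map.1 hz
            rfl
          rw [h1, h2, Multiset.card_zero, Multiset.card_map, hH]
          refine ⟨by omega, le_rfl, by omega, by omega, le_rfl⟩
        · rw [Function.update_of_ne hlr', Function.update_of_ne hlr']
          obtain ⟨h1, h2, h3, h4, h5⟩ := hl l (by omega)
          have h6 : (H.map fun x => (r, x)).filter (fun p : ℕ × ℕ => p.1 = l) = 0 := by
            rw [Multiset.filter_eq_nil]
            intro z hz h
            obtain ⟨x, -, rfl⟩ := Multiset.mem_map.1 hz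
            exact hlr' h.symm
          rw [h1, h6, Multiset.card_zero]
          refine ⟨by omega, h2, h3, h4, by omega⟩
      · rw [Finset.sum_range_succ, Function.update_self, Function.update_self]
        have h0 : ∑ l ∈ Finset.range r, Function.update N r t l *
            Function.update a r (p + (D' + e) + 1) l ^ 2 =
            ∑ l ∈ Finset.range r, N l * a l ^ 2 := by
          refine Finset.sum_congr rfl fun l hl => ?_
          have hne : l ≠ r := (Finset.mem_range.1 hl).ne
          rw [Function.update_of_ne hne, Function.update_of_ne hne]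
        rw [h0, hHK, Multiset.map_add, Multiset.sum_add]
        have h1 : (p + (D' + e) + 1) ^ 2 ≤ (p + D' + 1) ^ 2 + e * (2 * M + 2) := by
          have := sq_aux (p + D' + 1) e M (by omega)
          rwa [show p + D' + 1 + e = p + (D' + e) + 1 by ring] at this
        have h2 : Multiset.card H * (p + D' + 1) ^ 2 ≤ (H.map fun x => (x + 1) ^ 2).sum :=
          sum_le _ fun x hx => Nat.pow_le_pow_left (by have := hHs x hx; omega) 2
        rw [hH] at h2
        calc ∑ l ∈ Finset.range r, N l * a l ^ 2 + t * (p + (D' + e) + 1) ^ 2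
            ≤ ((K.map fun x => (x + 1) ^ 2).sum + 2 * t * D' * (2 * M + 2)) +
              t * ((p + D' + 1) ^ 2 + e * (2 * M + 2)) :=
              add_le_add hsum (Nat.mul_le_mul_left _ h1)
          _ = t * (p + D' + 1) ^ 2 + (K.map fun x => (x + 1) ^ 2).sum +
              (2 * t * D' * (2 * M + 2) + t * e * (2 * M + 2)) := by ring
          _ ≤ (H.map fun x => (x + 1) ^ 2).sum + (K.map fun x => (x + 1) ^ 2).sum +
              (2 * t * D' * (2 * M + 2) + 2 * t * e * (2 * M + 2)) := by
              gcongr
              nlinarith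
          _ = _ := by ring

theorem t : Helper27.UC.S_BLK := by
  intro G t M B ht htG hG
  obtain ⟨x0, hx0⟩ : ∃ x0, x0 ∈ G := Multiset.card_pos_iff_exists_mem.1 (by omega)
  obtain ⟨r, T, a, N, h1, h2, h3, h4, h5, h6⟩ := main t M ht _ G (M - B) (M - (M - B)) rfl htG
    (fun x hx => by have := hG x hx; omega) (by omega)
  refine ⟨r, T, a, N, h1, h2, h3, h4, fun l hl => ?_, h6.trans ?_⟩
  · obtain ⟨h7, h8, h9, h10, h11⟩ := h5 l hl
    exact ⟨h7, h8, h9, by omega, by omega⟩
  · gcongr
    omega

end Pool.Agent.Helper26.UC.BLK
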