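import Pool.Agent.Helper27.UC.Goals7

/-!
PROJECT UC (MP_d3128a_ag), packet HDB: arithmetic consequences of `HD`.
-/

set_option autoImplicit false

namespace Pool.Agent.Helper26.UC.HDB

open Pool.Agent.Helper27.UC

lemma map_up {α : Type} (s : Multiset α) (f : α → ℕ) (m : ℕ) (h : ∀ v ∈ s, f v ≤ m) :
    (s.map f).sum ≤ Multiset.card s * m := by
  have := Multiset.sum_le_card_nsmul (s.map f) m (by
    intro x hx
    obtain ⟨v, hv, rfl⟩ := Multiset.mem_map.mp hx
    exact h v hv)
  simpa using this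

lemma map_low {α : Type} (s : Multiset α) (f : α → ℕ) (c m : ℕ) (h : ∀ v ∈ s, m ≤ c * f v) :
    Multiset.card s * m ≤ c * (s.map f).sum := by
  have h1 := Multiset.card_nsmul_le_sum (s := s.map fun v => c * f v) (a := m) (by
    intro x hx
    obtain ⟨v, hv, rfl⟩ := Multiset.mem_map.mp hx
    exact h v hv)
  rw [Multiset.sum_map_mul_left] at h1
  simpa using h1

/-- **HDB**. -/
theorem t : S_HDB := by
  intro K n m h l P hHD
  obtain ⟨hK, hn, hnm, hcard, hh, hl, hP, hL, hPc, -⟩ := hHD
  have hs1 : h.sum ≤ Multiset.card h * m := by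
    simpa using map_up h id m fun v hv => (hh v hv).1
  have hs2 : Multiset.card h * m ≤ K * h.sum := by
    simpa using map_low h id K m fun v hv => (hh v hv).2.1
  have ls1 : l.sum ≤ Multiset.card l * m := by
    simpa using map_up l id m fun v hv => (hl v hv).1
  have ls2 : Multiset.card l * m ≤ K * l.sum := by
    simpa using map_low l id K m fun v hv => (hl v hv).2.1
  have ps1 : (P.map fun p => p.2).sum ≤ Multiset.card P * m :=
    map_up P _ m fun p hp => (hP p hp).1.trans (hP p hp).2.1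
  have ps2 : Multiset.card P * m ≤ K * (P.map fun p => p.2).sum :=
    map_low P _ K m fun p hp => (hP p hp).2.2.1
  have hq1 : (h.map fun v => v ^ 2).sum ≤ Multiset.card h * m ^ 2 :=
    map_up h _ _ fun v hv => Nat.pow_le_pow_left (hh v hv).1 2
  have hq2 : Multiset.card h * m ^ 2 ≤ K ^ 2 * (h.map fun v => v ^ 2).sum :=
    map_low h _ _ _ fun v hv => by
      rw [← mul_pow]
      exact Nat.pow_le_pow_left (hh v hv).2.1 2
  have lq1 : (l.map fun v => v ^ 2).sum ≤ Multiset.card l * m ^ 2 :=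
    map_up l _ _ fun v hv => Nat.pow_le_pow_left (hl v hv).1 2
  have lq2 : Multiset.card l * m ^ 2 ≤ K ^ 2 * (l.map fun v => v ^ 2).sum :=
    map_low l _ _ _ fun v hv => by
      rw [← mul_pow]
      exact Nat.pow_le_pow_left (hl v hv).2.1 2
  have pq1 : (P.map fun p => p.2 ^ 2).sum ≤ Multiset.card P * m ^ 2 :=
    map_up P _ _ fun p hp => Nat.pow_le_pow_left ((hP p hp).1.trans (hP p hp).2.1) 2
  have pq2 : Multiset.card P * m ^ 2 ≤ K ^ 2 * (P.map fun p => p.2 ^ 2).sum :=
    map_low P _ _ _ fun p hp => by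
      rw [← mul_pow]
      exact Nat.pow_le_pow_left (hP p hp).2.2.1 2
  unfold ms qs
  generalize h.sum = hs at *
  generalize l.sum = ls at *
  generalize (P.map fun p => p.2).sum = ps at *
  generalize (h.map fun v => v ^ 2).sum = hq at *
  generalize (l.map fun v => v ^ 2).sum = lq at *
  generalize (P.map fun p => p.2 ^ 2).sum = pq at *
  generalize Multiset.card h = H at *
  generalize Multiset.card l = L at *
  generalize Multiset.card P = C at *
  have hL1 : 1000 * L ≤ n := by nlinarith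
  have hC1 : 1000 * C ≤ n := by nlinarith
  have h17 : n ≤ 17 * H := by omega
  have hm : 1000 * K ^ 2 ≤ m := by
    have : 1000 * K ^ 2 ≤ 10 ^ 8 * K ^ 4 := by
      have h1 : K ^ 2 ≤ K ^ 4 := Nat.pow_le_pow_right hK (by norm_num)
      omega
    omega
  have hn6 : 10 ^ 6 * K ≤ n := by
    have : K ≤ K ^ 4 := by
      calc K = K ^ 1 := (pow_one K).symm
        _ ≤ K ^ 4 := Nat.pow_le_pow_right hK (by norm_num)
    omega
  have e1 : n * m = 16 * (H * m) + 4 * (L * m) + C * m := by rw [← hcard]; ring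
  have e2 : n * m ^ 2 = 16 * (H * m ^ 2) + 4 * (L * m ^ 2) + C * m ^ 2 := by rw [← hcard]; ring
  refine ⟨?_, ?_, ?_, ?_, ?_, ?_, ?_, ?_, ?_, ?_⟩
  · rw [e1]
    linarith
  · rw [e1]
    omega
  · calc n * m ≤ 17 * H * m := Nat.mul_le_mul_right m h17
      _ = 17 * (H * m) := by ring
      _ ≤ 17 * (K * hs) := Nat.mul_le_mul_left 17 hs2
      _ = 17 * K * hs := by ring
  · rw [e1]
    omega
  · calc 1000 * K * ls ≤ 1000 * K * (L * m) := Nat.mul_le_mul_left _ ls1
      _ = 1000 * K * L * m := by ring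
      _ ≤ n * m := Nat.mul_le_mul_right m hL
  · calc 1000 * K * ps ≤ 1000 * K * (C * m) := Nat.mul_le_mul_left _ ps1
      _ = 1000 * K * C * m := by ring
      _ ≤ n * m := Nat.mul_le_mul_right m hPc
  · rw [e2]
    linarith
  · rw [e2]
    omega
  · calc 1000 * K * (K * n) = n * (1000 * K ^ 2) := by ring
      _ ≤ n * m := Nat.mul_le_mul_left n hm
  · calc 1000 * K * (1000 * m) = (10 ^ 6 * K) * m := by ring
      _ ≤ n * m := Nat.mul_le_mul_right m hn6

end Pool.Agent.Helper26.UC.HDB
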