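import Pool.Agent.Helper27.UC.Goals8

/-!
PROJECT UC part 6 (MP_d3128a_ag), packet HEB: arithmetic consequences of `HE`.
-/

set_option autoImplicit false

namespace Pool.Agent.Helper26.UC.HEB

open Pool.Agent.Helper27.UC

/-- weighted sums -/
lemma sum_le {α : Type} (s : Multiset α) (f g : α → ℕ) (a b : ℕ)
    (h : ∀ v ∈ s, a * f v ≤ b * g v) : a * (s.map f).sum ≤ b * (s.map g).sum := by
  rw [← Multiset.sum_map_mul_left, ← Multiset.sum_map_mul_left]
  exact Multiset.sum_map_le_sum_map _ _ h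

/-- **HEB**. -/
theorem t : S_HEB := by
  intro c Q M h l P hHE
  obtain ⟨hc, hQ, hM, hh, hl, hP, -, -, -, hM0, hl4, hP4, -⟩ := hHE
  -- the bounds `100 c y ≤ √Q`
  have key : ∀ y : ℕ, (100 * c * y) ^ 2 ≤ Q → 100 * c * y ^ 2 ≤ Nat.sqrt Q * y := by
    intro y hy
    have h1 : 100 * c * y ≤ Nat.sqrt Q := Nat.le_sqrt'.mpr hy
    calc 100 * c * y ^ 2 = (100 * c * y) * y := by ring
      _ ≤ Nat.sqrt Q * y := Nat.mul_le_mul_right y h1
  have h2 : 100 * c * (h.map fun v => v ^ 2).sum ≤ Nat.sqrt Q * h.sum := by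
    simpa using sum_le h (fun v => v ^ 2) id (100 * c) (Nat.sqrt Q)
      fun v hv => key v (hh v hv).2.1
  have l2 : 100 * c * (l.map fun v => v ^ 2).sum ≤ Nat.sqrt Q * l.sum := by
    simpa using sum_le l (fun v => v ^ 2) id (100 * c) (Nat.sqrt Q)
      fun v hv => key v (hl v hv).2.1
  have P2 : 100 * c * (P.map fun p => p.2 ^ 2).sum ≤ Nat.sqrt Q * (P.map fun p => p.2).sum :=
    sum_le P (fun p => p.2 ^ 2) (fun p => p.2) (100 * c) (Nat.sqrt Q) fun p hp =>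
      key p.2 (le_trans (Nat.pow_le_pow_left (Nat.mul_le_mul_left _ (hP p hp).2.1) 2)
        (hP p hp).2.2.1)
  have h3 : 2 * h.sum ≤ (h.map fun v => v ^ 2).sum := by
    have := sum_le h id (fun v => v ^ 2) 2 1 fun v hv => by
      have := (hh v hv).1
      show 2 * v ≤ 1 * v ^ 2
      nlinarith
    simpa using this
  have l3 : 2 * l.sum ≤ (l.map fun v => v ^ 2).sum := by
    have := sum_le l id (fun v => v ^ 2) 2 1 fun v hv => by
      have := (hl v hv).1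
      show 2 * v ≤ 1 * v ^ 2
      nlinarith
    simpa using this
  have P3 : 2 * (P.map fun p => p.2).sum ≤ (P.map fun p => p.2 ^ 2).sum := by
    have := sum_le P (fun p => p.2) (fun p => p.2 ^ 2) 2 1 fun p hp => by
      have := (hP p hp).1
      show 2 * p.2 ≤ 1 * p.2 ^ 2
      nlinarith
    simpa using this
  have hP4' : 400 * (P.map fun p => p.2).sum ≤ M := hP4
  have hM' : M = 16 * h.sum + 4 * l.sum + (P.map fun p => p.2).sum := hM
  have hQ' : Q = 16 * (h.map fun v => v ^ 2).sum + 4 * (l.map fun v => v ^ 2).sum +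
      (P.map fun p => p.2 ^ 2).sum := hQ
  have hQM : 100 * c * Q ≤ Nat.sqrt Q * M := by
    calc 100 * c * Q = 100 * c * (16 * (h.map fun v => v ^ 2).sum +
          4 * (l.map fun v => v ^ 2).sum + (P.map fun p => p.2 ^ 2).sum) := by rw [← hQ']
      _ = 16 * (100 * c * (h.map fun v => v ^ 2).sum) +
          4 * (100 * c * (l.map fun v => v ^ 2).sum) +
          100 * c * (P.map fun p => p.2 ^ 2).sum := by ring
      _ ≤ 16 * (Nat.sqrt Q * h.sum) + 4 * (Nat.sqrt Q * l.sum) +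
          Nat.sqrt Q * (P.map fun p => p.2).sum := by
          omega
      _ = Nat.sqrt Q * (16 * h.sum + 4 * l.sum + (P.map fun p => p.2).sum) := by ring
      _ = Nat.sqrt Q * M := by rw [← hM']
  have g1 : 10 ^ 4 * c ^ 2 * Q ≤ M ^ 2 := by
    rcases Nat.eq_zero_or_pos Q with hz | hpos
    · rw [hz]
      simp
    · have e1 : (100 * c * Q) ^ 2 ≤ (Nat.sqrt Q * M) ^ 2 := Nat.pow_le_pow_left hQM 2
      have e2 : Nat.sqrt Q ^ 2 ≤ Q := Nat.sqrt_le' Q
      have e3 : Q * (10 ^ 4 * c ^ 2 * Q) ≤ Q * M ^ 2 := by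
        calc Q * (10 ^ 4 * c ^ 2 * Q) = (100 * c * Q) ^ 2 := by ring
          _ ≤ (Nat.sqrt Q * M) ^ 2 := e1
          _ = Nat.sqrt Q ^ 2 * M ^ 2 := by ring
          _ ≤ Q * M ^ 2 := Nat.mul_le_mul_right _ e2
      exact Nat.le_of_mul_le_mul_left e3 hpos
  have big : ∀ y : ℕ, (100 * c * y) ^ 2 ≤ Q → 10 ^ 4 * y ≤ M := by
    intro y hy
    have e1 : (10 ^ 4 * c ^ 2 * y) ^ 2 ≤ M ^ 2 := by
      calc (10 ^ 4 * c ^ 2 * y) ^ 2 = 10 ^ 4 * c ^ 2 * (100 * c * y) ^ 2 := by ring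
        _ ≤ 10 ^ 4 * c ^ 2 * Q := Nat.mul_le_mul_left _ hy
        _ ≤ M ^ 2 := g1
    have e2 : 10 ^ 4 * c ^ 2 * y ≤ M := (Nat.pow_le_pow_iff_left (by norm_num)).mp e1
    have e3 : 1 ≤ c ^ 2 := Nat.one_le_pow _ _ hc
    calc 10 ^ 4 * y = 10 ^ 4 * 1 * y := by ring
      _ ≤ 10 ^ 4 * c ^ 2 * y := Nat.mul_le_mul_right _ (Nat.mul_le_mul_left _ e3)
      _ ≤ M := e2
  refine ⟨g1, ?_, ?_, ?_, fun v hv => big v (hh v hv).2.1, fun v hv => big v (hl v hv).2.1,
    fun p hp => big p.1 (hP p hp).2.2.1⟩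
  · rw [hQ', hM']
    omega
  · omega
  · omega

end Pool.Agent.Helper26.UC.HEB
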