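import Pool.Agent.Helper27.UC.Goals4
import Pool.Agent.Helper93.UC.GEN

/-!
PROJECT UC part 2 (MP_d3128a_ag), packet MON (helper26): monotonicity in the degree.
-/

set_option autoImplicit false

noncomputable section

namespace Pool.Agent.Helper26.UC.MON

open Module Pool.Agent.Helper97.Tate Pool.Agent.Helper27.UC Pool.Agent.Helper93.UC.GEN

abbrev II : Ideal (MvPolynomial (Fin 3) ℂ) := MvPolynomial.idealOfVars (Fin 3) ℂ

theorem mem_Van {P : Fin 3 → ℂ} {m : ℕ} {z : MvPolynomial (Fin 3) ℂ} :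
    z ∈ Van P m ↔ tau P z ∈ II ^ m := by
  rw [MvPolynomial.mem_pow_idealOfVars_iff']
  rfl

theorem mem_Fm {d : ℕ} {z : MvPolynomial (Fin 3) ℂ} : z ∈ Fm ℂ (d : ℤ) ↔ z.IsHomogeneous d := by
  rw [Fm, if_pos (by omega), Int.toNat_natCast, MvPolynomial.mem_homogeneousSubmodule]

theorem fin_Fm (d : ℕ) : FiniteDimensional ℂ (Fm ℂ d) := by
  have h5 : FiniteDimensional ℂ (MvPolynomial.homogeneousSubmodule (Fin 3) ℂ d) :=
    Module.Finite.iff_fg.2 (MvPolynomial.homogeneousSubmodule_fg (σ := Fin 3) (R := ℂ) d)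
  have h6 : Fm ℂ (d : ℤ) = MvPolynomial.homogeneousSubmodule (Fin 3) ℂ d := by
    unfold Fm
    rw [if_pos (by positivity)]
    simp
  rw [h6]
  exact h5

theorem fin_spc (d : ℕ) (L : Multiset ((Fin 3 → ℂ) × ℕ)) : FiniteDimensional ℂ (spc d L) := by
  have := fin_Fm d
  exact Submodule.finiteDimensional_of_le (inf_le_left : spc d L ≤ Fm ℂ d)

theorem mem_spc {d : ℕ} {L : Multiset ((Fin 3 → ℂ) × ℕ)} {z : MvPolynomial (Fin 3) ℂ} :
    z ∈ spc d L ↔ z.IsHomogeneous d ∧ ∀ p ∈ L, z ∈ Van p.1 p.2 := by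
  unfold spc
  rw [Submodule.mem_inf, mem_Fm, Submodule.mem_iInf]
  simp only [Submodule.mem_iInf]

/-- multiplication by the third variable -/
def mX : MvPolynomial (Fin 3) ℂ →ₗ[ℂ] MvPolynomial (Fin 3) ℂ :=
  LinearMap.mulLeft ℂ (MvPolynomial.X 2)

theorem mX_apply (z : MvPolynomial (Fin 3) ℂ) : mX z = MvPolynomial.X 2 * z :=
  rfl

theorem mX_inj : Function.Injective mX := by
  intro x y h
  rw [mX_apply, mX_apply] at h
  exact mul_left_cancel₀ (MvPolynomial.X_ne_zero _) h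

theorem mX_mem {d : ℕ} {L : Multiset ((Fin 3 → ℂ) × ℕ)} {z : MvPolynomial (Fin 3) ℂ}
    (hz : z ∈ spc d L) : mX z ∈ spc (d + 1) L := by
  rw [mem_spc] at hz ⊢
  rw [mX_apply]
  refine ⟨?_, fun p hp => ?_⟩
  · have h := (MvPolynomial.isHomogeneous_X ℂ (2 : Fin 3)).mul hz.1
    rwa [add_comm 1 d] at h
  · have h := hz.2 p hp
    rw [mem_Van] at h ⊢
    rw [map_mul]
    exact Ideal.mul_mem_left _ _ h

theorem part1 (d : ℕ) (l : Multiset ℕ) : gd d l ≤ gd (d + 1) l := by
  obtain ⟨L, hL, h⟩ := gd_mem (d + 1) l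
  refine le_trans (Nat.sInf_le ⟨L, hL, le_rfl⟩) (le_trans ?_ h)
  have := fin_spc (d + 1) L
  have h1 : (spc d L).map mX ≤ spc (d + 1) L := by
    rintro _ ⟨z, hz, rfl⟩
    exact mX_mem hz
  calc finrank ℂ (spc d L) = finrank ℂ ((spc d L).map mX) :=
        (LinearEquiv.finrank_eq (Submodule.equivMapOfInjective mX mX_inj _))
    _ ≤ _ := Submodule.finrank_mono h1

/-- division by a linear form not vanishing at the point -/
theorem cancel {p : ℂ} (hp : p ≠ 0) (m : ℕ) {g : MvPolynomial (Fin 3) ℂ}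
    (h : (MvPolynomial.X 2 + MvPolynomial.C p) * g ∈ II ^ m) : g ∈ II ^ m := by
  have hX : (MvPolynomial.X 2 : MvPolynomial (Fin 3) ℂ) ∈ II := Ideal.subset_span ⟨2, rfl⟩
  obtain ⟨u, hu⟩ := sub_dvd_pow_sub_pow (MvPolynomial.C p : MvPolynomial (Fin 3) ℂ)
    (-MvPolynomial.X 2) m
  have h1 : (MvPolynomial.C p : MvPolynomial (Fin 3) ℂ) ^ m * g ∈ II ^ m := by
    have h2 : (MvPolynomial.C p : MvPolynomial (Fin 3) ℂ) ^ m * g =
        u * ((MvPolynomial.X 2 + MvPolynomial.C p) * g) + (-MvPolynomial.X 2) ^ m * g := by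
      linear_combination g * hu
    rw [h2]
    exact Ideal.add_mem _ (Ideal.mul_mem_left _ _ h)
      (Ideal.mul_mem_right _ _ (Ideal.pow_mem_pow (neg_mem hX) m))
  have h3 : g = MvPolynomial.C ((p ^ m)⁻¹) * ((MvPolynomial.C p : MvPolynomial (Fin 3) ℂ) ^ m *
      g) := by
    rw [← mul_assoc, ← MvPolynomial.C_pow, ← MvPolynomial.C_mul, inv_mul_cancel₀ (pow_ne_zero m hp),
      MvPolynomial.C_1, one_mul]
  rw [h3]
  exact Ideal.mul_mem_left _ _ h1

theorem tau_X2 (P : Fin 3 → ℂ) : tau P (MvPolynomial.X 2) =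
    (MvPolynomial.X 2 + MvPolynomial.C (P 2) : MvPolynomial (Fin 3) ℂ) := by
  unfold tau
  rw [MvPolynomial.aeval_X]

/-- the exponents of the binary forms -/
def ee (d : ℕ) (i : Fin (d + 2)) : Fin 3 →₀ ℕ :=
  Finsupp.single 0 (i : ℕ) + Finsupp.single 1 (d + 1 - i)

/-- the restriction to `X 2 = 0`, on forms of degree `d + 1` -/
def res (d : ℕ) : MvPolynomial (Fin 3) ℂ →ₗ[ℂ] (Fin (d + 2) → ℂ) where
  toFun z i := MvPolynomial.coeff (ee d i) z
  map_add' x y := by
    funext i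
    simp
  map_smul' c x := by
    funext i
    simp

theorem degree3 (x : Fin 3 →₀ ℕ) : x.degree = x 0 + x 1 + x 2 := by
  rw [Finsupp.degree_eq_sum, Fin.sum_univ_three]

theorem hom_deg {d : ℕ} {f : MvPolynomial (Fin 3) ℂ} (hf : f.IsHomogeneous d) {x : Fin 3 →₀ ℕ}
    (hx : MvPolynomial.coeff x f ≠ 0) : x.degree = d := by
  have h3 := hf hx
  rw [Finsupp.degree_eq_weight_one]
  exact h3

theorem exists_div {d : ℕ} {z : MvPolynomial (Fin 3) ℂ} (hz : z.IsHomogeneous (d + 1))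
    (h : res d z = 0) : ∃ y : MvPolynomial (Fin 3) ℂ, y.IsHomogeneous d ∧ mX y = z := by
  have hmod : MvPolynomial.modMonomial z (Finsupp.single (2 : Fin 3) 1) = 0 := by
    ext x
    rw [MvPolynomial.coeff_zero]
    by_cases hx : Finsupp.single (2 : Fin 3) 1 ≤ x
    · exact MvPolynomial.coeff_modMonomial_of_le _ hx
    · rw [MvPolynomial.coeff_modMonomial_of_not_le _ hx]
      have hx2 : x 2 = 0 := by
        rw [Finsupp.single_le_iff] at hx
        omega
      by_contra hne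
      have hd := hom_deg hz hne
      rw [degree3, hx2, add_zero] at hd
      have hlt : x 0 < d + 2 := by omega
      have h1 := congrFun h ⟨x 0, hlt⟩
      have h2 : ee d ⟨x 0, hlt⟩ = x := by
        ext k
        fin_cases k
        · simp [ee]
        · simp [ee]
          omega
        · simp [ee, hx2]
      have h3 : MvPolynomial.coeff (ee d ⟨x 0, hlt⟩) z = 0 := h1
      rw [h2] at h3
      exact hne h3
  refine ⟨MvPolynomial.divMonomial z (Finsupp.single (2 : Fin 3) 1), ?_, ?_⟩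
  · intro x hx
    rw [MvPolynomial.coeff_divMonomial] at hx
    have hd := hom_deg hz hx
    rw [map_add, Finsupp.degree_single] at hd
    have h4 : x.degree = d := by omega
    rw [Finsupp.degree_eq_weight_one] at h4
    exact h4
  · have h1 := MvPolynomial.divMonomial_add_modMonomial_single z (2 : Fin 3)
    rw [hmod, add_zero] at h1
    rw [mX_apply]
    exact h1

theorem bound {d : ℕ} {L : Multiset ((Fin 3 → ℂ) × ℕ)} (hL : ∀ p ∈ L, p.1 2 ≠ 0) :
    finrank ℂ (spc (d + 1) L) ≤ finrank ℂ (spc d L) + (d + 2) := by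
  have := fin_spc (d + 1) L
  have := fin_spc d L
  let φ : spc (d + 1) L →ₗ[ℂ] (Fin (d + 2) → ℂ) := (res d).domRestrict (spc (d + 1) L)
  have h1 := LinearMap.finrank_range_add_finrank_ker φ
  have h2 : finrank ℂ (LinearMap.range φ) ≤ d + 2 := by
    have h3 := Submodule.finrank_le (LinearMap.range φ)
    rwa [Module.finrank_fin_fun] at h3
  have h3 : finrank ℂ (LinearMap.ker φ) ≤ finrank ℂ (spc d L) := by
    have h4 : (LinearMap.ker φ).map (spc (d + 1) L).subtype ≤ (spc d L).map mX := by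
      rintro _ ⟨z, hz, rfl⟩
      have hz1 : res d (z : MvPolynomial (Fin 3) ℂ) = 0 := hz
      obtain ⟨hz2, hz3⟩ := mem_spc.1 z.2
      obtain ⟨y, hy, hyz⟩ := exists_div hz2 hz1
      refine ⟨y, ?_, hyz⟩
      refine mem_spc.2 ⟨hy, fun p hp => ?_⟩
      have h5 := hz3 p hp
      rw [mem_Van] at h5 ⊢
      apply cancel (hL p hp)
      rw [← hyz, mX_apply, map_mul, tau_X2] at h5
      exact h5
    have h5 : FiniteDimensional ℂ ((spc d L).map mX) := inferInstance
    calc finrank ℂ (LinearMap.ker φ)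
        = finrank ℂ ((LinearMap.ker φ).map (spc (d + 1) L).subtype) :=
          LinearEquiv.finrank_eq (Submodule.equivMapOfInjective _ (Submodule.subtype_injective _) _)
      _ ≤ finrank ℂ ((spc d L).map mX) := Submodule.finrank_mono h4
      _ = finrank ℂ (spc d L) :=
          (LinearEquiv.finrank_eq (Submodule.equivMapOfInjective mX mX_inj _)).symm
  omega

/-- a position attaining the minimum, with non-zero third coordinates -/
theorem exists_pos (d : ℕ) (l : Multiset ℕ) : ∃ L : Multiset ((Fin 3 → ℂ) × ℕ),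
    L.map Prod.snd = l ∧ (∀ p ∈ L, p.1 2 ≠ 0) ∧ finrank ℂ (spc d L) ≤ gd d l := by
  classical
  obtain ⟨m, hm⟩ : ∃ m : Fin l.card → ℕ, l = (Finset.univ : Finset (Fin l.card)).val.map m := by
    refine ⟨fun i => l.toList.get (i.cast (by simp)), ?_⟩
    rw [Fin.univ_val_map]
    have h1 : (List.ofFn fun i : Fin l.card => l.toList.get (i.cast (by simp))) = l.toList := by
      apply List.ext_get
      · simp
      · intro k h1 h2
        simp
    rw [h1, Multiset.coe_toList]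
  generalize l.card = n at m hm
  obtain ⟨L, hL1, hL2⟩ := gd_mem d l
  obtain ⟨P, hP⟩ := enum n m L (by rw [hL1, hm])
  rw [hP, spc_enum] at hL2
  obtain ⟨G, hG0, hG⟩ := trk ℂ n d _ _ P hL2
  have hprod : G * ∏ i : Fin n, (MvPolynomial.X (i, (2 : Fin 3)) :
      MvPolynomial (Fin n × Fin 3) ℂ) ≠ 0 :=
    mul_ne_zero hG0 (Finset.prod_ne_zero_iff.2 fun i _ => MvPolynomial.X_ne_zero _)
  obtain ⟨Q, hQ⟩ : ∃ Q : Fin n × Fin 3 → ℂ, MvPolynomial.eval Q
      (G * ∏ i : Fin n, (MvPolynomial.X (i, (2 : Fin 3)) : MvPolynomial (Fin n × Fin 3) ℂ)) ≠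
      0 := by
    by_contra hcon
    push Not at hcon
    exact hprod (MvPolynomial.funext fun x => by rw [hcon x, map_zero])
  rw [map_mul, map_prod] at hQ
  have hQ2 : ∀ i : Fin n, Q (i, 2) ≠ 0 := by
    intro i
    have h1 := Finset.prod_ne_zero_iff.1 (right_ne_zero_of_mul hQ) i (Finset.mem_univ i)
    rwa [MvPolynomial.eval_X] at h1
  have hQG : MvPolynomial.eval Q G ≠ 0 := left_ne_zero_of_mul hQ
  refine ⟨(Finset.univ : Finset (Fin n)).val.map fun i => ((fun k => Q (i, k)), m i), ?_, ?_, ?_⟩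
  · rw [Multiset.map_map, hm]
    rfl
  · intro p hp
    obtain ⟨i, -, rfl⟩ := Multiset.mem_map.1 hp
    exact hQ2 i
  · rw [spc_enum]
    exact hG (fun i k => Q (i, k)) hQG

theorem t : Helper27.UC.S_MON := by
  intro d l
  refine ⟨part1 d l, ?_⟩
  obtain ⟨L, hL1, hL2, hL3⟩ := exists_pos d l
  refine le_trans (Nat.sInf_le ⟨L, hL1, bound hL2⟩) ?_
  omega

end Pool.Agent.Helper26.UC.MON
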